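import Pool.Agent.H90.STK.Stmts3
import Pool.Agent.H40.STK.TOV

/-!
# Board stk2, module TO2: summation over the cells
-/

set_option autoImplicit false

namespace Pool.STK

open Finset Real MeasureTheory
open scoped RealInnerProductSpace
open Pool.Agent.H49.Ent Pool.Agent.H32.Dense
open Pool.Agent.H53.Kak (E tube)
open Pool.Agent.H53.Dns (Mx psl slp)

namespace TO2

open TOV

variable {d : ℕ} {ι : Type}

open Classical in
/-- The label of a tube in the slab `g`. -/
noncomputable def lab (c e : E d) (g : ℤ) : Lab d :=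
  (kk e, decide (0 < e (kk e)), g, fl 0 (fun l => psl (kk e) c e (g * hm d) l))

open Classical in
/-- The labels of a tube. -/
noncomputable def labs (c e : E d) : Finset (Lab d) :=
  (Finset.Icc ⌈(c (kk e) - 2) / hm d⌉ ⌊(c (kk e) + 2) / hm d⌋).image (lab c e)

lemma mem_labs {c e : E d} {a : Lab d} :
    a ∈ labs c e ↔ lab c e a.2.2.1 = a ∧ |c (kk e) - a.2.2.1 * hm d| ≤ 2 := by
  have hh := hm_pos d
  unfold labs
  rw [Finset.mem_image]
  have key : ∀ g : ℤ, g ∈ Finset.Icc ⌈(c (kk e) - 2) / hm d⌉ ⌊(c (kk e) + 2) / hm d⌋ ↔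
      |c (kk e) - g * hm d| ≤ 2 := by
    intro g
    rw [Finset.mem_Icc, Int.ceil_le, Int.le_floor, div_le_iff₀ hh, le_div_iff₀ hh, abs_le]
    constructor
    · rintro ⟨h1, h2⟩
      constructor <;> linarith
    · rintro ⟨h1, h2⟩
      constructor <;> linarith
  constructor
  · rintro ⟨g, hg, rfl⟩
    exact ⟨rfl, (key g).1 hg⟩
  · rintro ⟨h1, h2⟩
    exact ⟨a.2.2.1, (key _).2 h2, h1⟩

lemma card_labs (c e : E d) : ((labs c e).card : ℝ) ≤ 4 / hm d + 1 := by
  have hh := hm_pos d
  unfold labs
  refine (Nat.cast_le.2 Finset.card_image_le).trans ?_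
  rw [Int.card_Icc]
  have h1 := Int.floor_le ((c (kk e) + 2) / hm d)
  have h2 := Int.le_ceil ((c (kk e) - 2) / hm d)
  have h3 : (c (kk e) + 2) / hm d - (c (kk e) - 2) / hm d = 4 / hm d := by
    rw [← sub_div]
    congr 1
    ring
  have h4 : (0 : ℝ) ≤ 4 / hm d := by positivity
  rcases le_total (⌊(c (kk e) + 2) / hm d⌋ + 1 - ⌈(c (kk e) - 2) / hm d⌉) 0 with h5 | h5
  · rw [Int.toNat_of_nonpos h5]
    push_cast
    linarith
  · have h6 : (((⌊(c (kk e) + 2) / hm d⌋ + 1 - ⌈(c (kk e) - 2) / hm d⌉).toNat : ℕ) : ℝ) =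
        ((⌊(c (kk e) + 2) / hm d⌋ + 1 - ⌈(c (kk e) - 2) / hm d⌉ : ℤ) : ℝ) := by
      exact_mod_cast congrArg (fun z : ℤ => (z : ℝ)) (Int.toNat_of_nonneg h5)
    rw [h6]
    push_cast
    linarith

/-- The height of a tube which meets the slab. -/
lemma height {δ : ℝ} (hδ1 : δ < 1) {c e x : E d} (he : ‖e‖ = 1) (hx : x ∈ tube δ c e)
    {k : Fin (d + 1)} {g : ℤ} (hs : x ∈ sl k g) : |c k - g * hm d| ≤ 2 := by
  have hh := hm_pos d
  have hh8 := hm_le d
  obtain ⟨h1, h2⟩ := hx
  obtain ⟨h3, h4⟩ := hs
  have h5 : ‖x - c‖ ≤ 3 / 2 := by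
    calc ‖x - c‖ = ‖((x - c) - ⟪x - c, e⟫ • e) + ⟪x - c, e⟫ • e‖ := by
          congr 1
          abel
      _ ≤ ‖(x - c) - ⟪x - c, e⟫ • e‖ + ‖⟪x - c, e⟫ • e‖ := norm_add_le _ _
      _ ≤ δ + 1 / 2 := by
          refine add_le_add h2 ?_
          rw [norm_smul, he, mul_one, Real.norm_eq_abs]
          exact h1
      _ ≤ 3 / 2 := by linarith
  have h6 : |x k - c k| ≤ 3 / 2 := by
    have := PiLp.norm_apply_le (x - c) k
    rw [Real.norm_eq_abs] at this
    exact this.trans h5
  rw [abs_le] at h6 ⊢
  constructor <;> nlinarith [h6.1, h6.2]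

/-- The label of a tube is one of the labels near any of its points in the slab. -/
lemma mem_near2 {δ : ℝ} (hδ : 0 < δ) (hδ1 : δ < 1) {c e x : E d} (he : ‖e‖ = 1)
    (hx : x ∈ tube δ c e) {g : ℤ} (hs : x ∈ sl (kk e) g) :
    lab c e g ∈ near x ((lab c e g).1, (lab c e g).2.1) := by
  have hh := hm_pos d
  have hh8 := hm_le d
  have hmx := kk_mx e
  have hg := sl_floor hs
  unfold near
  rw [Finset.mem_image]
  refine ⟨(lab c e g).2.2.2, ?_, ?_⟩
  · rw [Fintype.mem_piFinset]
    intro l
    rw [Finset.mem_Icc]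
    have h1 := Pool.Agent.H53.Dns.near_psl hδ.le hmx he hx l
    have h2 := hmx.slp he l
    have h3 : (g : ℝ) * hm d ≤ x (kk e) ∧ x (kk e) < ((g : ℝ) + 1) * hm d := hs
    have h4 : |psl (kk e) c e (x (kk e)) l - psl (kk e) c e (g * hm d) l| ≤ 1 / 8 := by
      have : psl (kk e) c e (x (kk e)) l - psl (kk e) c e (g * hm d) l =
          (x (kk e) - g * hm d) * slp (kk e) e l := by
        simp only [psl]
        ring
      rw [this, abs_mul, abs_of_nonneg (by linarith [h3.1])]
      nlinarith [abs_nonneg (slp (kk e) e l), h3.1, h3.2]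
    have h5 : |x ((kk e).succAbove l) - psl (kk e) c e (g * hm d) l| < 3 := by
      rw [abs_le] at h1 h4
      rw [abs_lt]
      constructor <;> linarith [h1.1, h1.2, h4.1, h4.2]
    have h6 := floor_near h5
    have h7 : (lab c e g).2.2.2 l = ⌊psl (kk e) c e (g * hm d) l⌋ := by
      simp only [lab, fl, rd, pow_zero, one_mul]
    rw [h7]
    exact h6
  · have h8 : (lab c e g).1 = kk e := rfl
    rw [h8, hg]
    rfl

/-- The tubes with label `a` form a cell. -/
lemma cell_of (c e : ι → E d) (he : ∀ i, ‖e i‖ = 1) (a : Lab d) :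
    Cell2 a.1 a.2.2.1 a.2.2.2 (fun i : {i // a ∈ labs (c i) (e i)} => c i)
      (fun i : {i // a ∈ labs (c i) (e i)} => e i) := by
  classical
  have h0 : ∀ i : {i // a ∈ labs (c i) (e i)}, lab (c i) (e i) a.2.2.1 = a :=
    fun i => (mem_labs.1 i.2).1
  have hk : ∀ i : {i // a ∈ labs (c i) (e i)}, kk (e i) = a.1 := fun i => by
    have := congrArg (fun z : Lab d => z.1) (h0 i)
    exact this
  have hs : ∀ i : {i // a ∈ labs (c i) (e i)}, decide (0 < e i (kk (e i))) = a.2.1 := fun i => by
    have := congrArg (fun z : Lab d => z.2.1) (h0 i)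
    exact this
  have hq : ∀ i : {i // a ∈ labs (c i) (e i)},
      fl 0 (fun l => psl (kk (e i)) (c i) (e i) (a.2.2.1 * hm d) l) = a.2.2.2 := fun i => by
    have := congrArg (fun z : Lab d => z.2.2.2) (h0 i)
    exact this
  refine ⟨fun i => he i, fun i => ?_, ?_, fun i => ?_, fun i => ?_⟩
  · rw [← hk i]
    exact kk_mx _
  · cases hb : a.2.1 with
    | true =>
      left
      intro i
      have := hs i
      rw [hb, decide_eq_true_eq, hk i] at this
      exact this
    | false =>
      right
      intro i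
      have h1 := hs i
      rw [hb, decide_eq_false_iff_not, hk i, not_lt] at h1
      have h2 : e i a.1 ≠ 0 := by
        have := (kk_mx (e i)).ne (he i)
        rwa [hk i] at this
      exact lt_of_le_of_ne h1 h2
  · have := (mem_labs.1 i.2).2
    rw [hk i] at this
    exact this
  · have := hq i
    rw [hk i] at this
    exact this

lemma mlt_nonneg [Fintype ι] (δ : ℝ) (c e : ι → E d) (x : E d) : 0 ≤ mlt δ c e x := by
  unfold mlt
  exact Finset.sum_nonneg fun i _ => Set.indicator_nonneg (fun _ _ => zero_le_one) _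

lemma mlt_meas [Fintype ι] (δ : ℝ) (c e : ι → E d) : Measurable (mlt δ c e) := by
  unfold mlt
  refine Finset.measurable_sum _ fun i _ => ?_
  exact measurable_const.indicator (Pool.Agent.H53.Kak.measurableSet_tube _ _ _)

/-- Entropy of a finite sum. -/
lemma gibbs {α : Type} (A : Finset α) (m : α → ℝ) (Q : ℝ) (hQ : 0 < Q) (hm : ∀ a ∈ A, 0 ≤ m a)
    (hA : (A.card : ℝ) ≤ Q) :
    (∑ a ∈ A, m a) * Real.log (∑ a ∈ A, m a) ≤
      ∑ a ∈ A, m a * Real.log (m a) + (∑ a ∈ A, m a) * Real.log Q := by
  set f := ∑ a ∈ A, m a with hf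
  have hf0 : 0 ≤ f := Finset.sum_nonneg hm
  rcases hf0.eq_or_lt with h0 | h0
  · rw [← h0]
    have h1 : ∀ a ∈ A, m a = 0 := (Finset.sum_eq_zero_iff_of_nonneg hm).1 (by rw [← hf, ← h0])
    have h2 : ∑ a ∈ A, m a * Real.log (m a) = 0 :=
      Finset.sum_eq_zero fun a ha => by rw [h1 a ha, zero_mul]
    rw [h2]
    simp
  · have key : ∀ a ∈ A, m a * Real.log f - m a * Real.log (m a) - m a * Real.log Q ≤
        f / Q - m a := by
      intro a ha
      rcases (hm a ha).eq_or_lt with h1 | h1
      · rw [← h1]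
        have : 0 ≤ f / Q := by positivity
        simpa using this
      · have h2 : Real.log (f / (Q * m a)) ≤ f / (Q * m a) - 1 :=
          Real.log_le_sub_one_of_pos (by positivity)
        rw [Real.log_div h0.ne' (by positivity), Real.log_mul hQ.ne' h1.ne'] at h2
        have h3 := mul_le_mul_of_nonneg_left h2 h1.le
        have h4 : m a * (f / (Q * m a) - 1) = f / Q - m a := by
          field_simp
        rw [h4] at h3
        linarith
    have h5 := Finset.sum_le_sum key
    simp only [Finset.sum_sub_distrib, Finset.sum_const, nsmul_eq_mul, ← Finset.sum_mul] at h5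
    rw [← hf] at h5
    have h6 : (A.card : ℝ) * (f / Q) ≤ f := by
      rw [mul_div_assoc', div_le_iff₀ hQ]
      nlinarith
    linarith

end TO2

open TOV TO2 in
theorem to2_thm : TO2Stmt := by
  classical
  intro d
  have hh := hm_pos d
  set Q : ℝ := ((2 * (d + 1) * 7 ^ d : ℕ) : ℝ) with hQ
  have hQ1 : 1 ≤ Q := by
    rw [hQ]
    have : 1 ≤ 2 * (d + 1) * 7 ^ d := Nat.mul_pos (by omega) (by positivity)
    exact_mod_cast this
  have hlQ : 0 ≤ Real.log Q := Real.log_nonneg hQ1
  refine ⟨(4 / hm d + 1) + Real.log Q * 2 ^ d, ?_, ?_⟩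
  · have : 0 ≤ 4 / hm d := by positivity
    have : 0 ≤ Real.log Q * 2 ^ d := by positivity
    linarith
  intro δ B hδ hδ1 hB ι _ c e he hcell
  set I : Finset (Lab d) := Finset.univ.biUnion fun i => labs (c i) (e i) with hI
  set M : Lab d → E d → ℝ := fun a => mlt δ (fun i : {i // a ∈ labs (c i) (e i)} => c i)
    (fun i : {i // a ∈ labs (c i) (e i)} => e i) with hM
  have hMi : ∀ a x, M a x = ∑ i, if a ∈ labs (c i) (e i) then
      (tube δ (c i) (e i)).indicator (fun _ => (1 : ℝ)) x else 0 := by
    intro a x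
    rw [hM]
    unfold mlt
    rw [← Finset.sum_filter]
    exact (Finset.sum_subtype (Finset.univ.filter fun i => a ∈ labs (c i) (e i))
      (fun i => by simp) (fun i => (tube δ (c i) (e i)).indicator (fun _ => (1 : ℝ)) x)).symm
  -- the multiplicity is the sum of those of the cells
  have hsum : ∀ x, mlt δ c e x = ∑ a ∈ I.filter (fun a => x ∈ sl a.1 a.2.2.1), M a x := by
    intro x
    simp_rw [hMi]
    rw [Finset.sum_comm]
    unfold mlt
    refine Finset.sum_congr rfl fun i _ => ?_
    by_cases hx : x ∈ tube δ (c i) (e i)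
    · set g := ⌊x (kk (e i)) / hm d⌋ with hg
      have hs : x ∈ sl (kk (e i)) g := by
        constructor
        · rw [← le_div_iff₀ hh]
          exact Int.floor_le _
        · rw [← div_lt_iff₀ hh]
          exact Int.lt_floor_add_one _
      rw [Finset.sum_eq_single (lab (c i) (e i) g)]
      · rw [if_pos]
        exact mem_labs.2 ⟨rfl, height hδ1 (he i) hx hs⟩
      · intro a ha hne
        rw [if_neg]
        intro h1
        rw [Finset.mem_filter] at ha
        apply hne
        have h2 := (mem_labs.1 h1).1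
        have h3 : kk (e i) = a.1 := congrArg (fun z : Lab d => z.1) h2
        have h4 := sl_floor ha.2
        rw [← h3] at h4
        rw [← h2, hg, h4]
      · intro h1
        exfalso
        apply h1
        rw [Finset.mem_filter]
        refine ⟨?_, hs⟩
        rw [hI, Finset.mem_biUnion]
        exact ⟨i, Finset.mem_univ _, mem_labs.2 ⟨rfl, height hδ1 (he i) hx hs⟩⟩
    · rw [Set.indicator_of_notMem hx]
      symm
      apply Finset.sum_eq_zero
      intro a _
      split_ifs <;> rfl
  -- few cells are active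
  have hK : ∀ x : E d, ((I.filter (fun a => x ∈ sl a.1 a.2.2.1)).filter
      (fun a => M a x ≠ 0)).card ≤ 2 * (d + 1) * 7 ^ d := by
    intro x
    have hsub : (I.filter (fun a => x ∈ sl a.1 a.2.2.1)).filter (fun a => M a x ≠ 0) ⊆
        (Finset.univ : Finset (Fin (d + 1) × Bool)).biUnion (near x) := by
      intro a ha
      rw [Finset.mem_filter, Finset.mem_filter] at ha
      obtain ⟨⟨-, hx2⟩, hx1⟩ := ha
      rw [hMi] at hx1
      obtain ⟨i, -, hi⟩ := Finset.exists_ne_zero_of_sum_ne_zero hx1
      have hia : a ∈ labs (c i) (e i) := by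
        by_contra hcon
        rw [if_neg hcon] at hi
        exact hi rfl
      rw [if_pos hia] at hi
      have hxi : x ∈ tube δ (c i) (e i) := by
        by_contra hcon
        rw [Set.indicator_of_notMem hcon] at hi
        exact hi rfl
      have h2 := (mem_labs.1 hia).1
      have h3 : kk (e i) = a.1 := congrArg (fun z : Lab d => z.1) h2
      have h1 := mem_near2 hδ hδ1 (he i) hxi (g := a.2.2.1) (by rw [h3]; exact hx2)
      rw [h2] at h1
      rw [Finset.mem_biUnion]
      exact ⟨(a.1, a.2.1), Finset.mem_univ _, h1⟩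
    refine (Finset.card_le_card hsub).trans ((Finset.card_biUnion_le_card_mul _ _ (7 ^ d)
      fun a _ => card_near x a).trans (le_of_eq ?_))
    rw [Finset.card_univ, Fintype.card_prod, Fintype.card_fin, Fintype.card_bool]
    ring
  have hM0 : ∀ a x, 0 ≤ M a x := fun a x => mlt_nonneg δ _ _ x
  have hMm : ∀ a, Measurable (M a) := fun a => mlt_meas δ _ _
  have hpt : ∀ x, ENNReal.ofReal (mlt δ c e x * Real.log (mlt δ c e x)) ≤
      (∑ a ∈ I, (sl a.1 a.2.2.1 : Set (E d)).indicator
        (fun x => ENNReal.ofReal (M a x * Real.log (M a x))) x) +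
      ENNReal.ofReal (Real.log Q) * ∑ i, (tube δ (c i) (e i)).indicator (fun _ => (1 : ENNReal)) x := by
    intro x
    set A := (I.filter (fun a => x ∈ sl a.1 a.2.2.1)).filter (fun a => M a x ≠ 0) with hA
    have h1 : mlt δ c e x = ∑ a ∈ A, M a x := by
      rw [hsum x, hA, Finset.sum_filter_ne_zero]
    have h2 := gibbs A (fun a => M a x) Q (by linarith) (fun a _ => hM0 a x)
      (by rw [hQ]; exact_mod_cast hK x)
    rw [← h1] at h2
    have hlog : ∀ a, 0 ≤ M a x * Real.log (M a x) := by
      intro a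
      rcases (hM0 a x).eq_or_lt with h3 | h3
      · rw [← h3]
        simp
      · have h4 : 1 ≤ M a x := by
          rw [hMi] at h3 ⊢
          have h5 : ∃ i ∈ (Finset.univ : Finset ι), 0 < (if a ∈ labs (c i) (e i) then
              (tube δ (c i) (e i)).indicator (fun _ => (1 : ℝ)) x else 0) := by
            by_contra hcon
            push Not at hcon
            exact absurd (Finset.sum_nonpos fun i hi => hcon i hi) (not_le.2 h3)
          obtain ⟨i, hi, h6⟩ := h5
          have h7 : (if a ∈ labs (c i) (e i) then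
              (tube δ (c i) (e i)).indicator (fun _ => (1 : ℝ)) x else 0) = 1 := by
            by_cases h8 : a ∈ labs (c i) (e i)
            · rw [if_pos h8] at h6 ⊢
              by_cases h9 : x ∈ tube δ (c i) (e i)
              · rw [Set.indicator_of_mem h9]
              · rw [Set.indicator_of_notMem h9] at h6
                exact absurd h6 (lt_irrefl _)
            · rw [if_neg h8] at h6
              exact absurd h6 (lt_irrefl _)
          refine h7.symm.le.trans ?_
          refine Finset.single_le_sum (f := fun i => if a ∈ labs (c i) (e i) then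
              (tube δ (c i) (e i)).indicator (fun _ => (1 : ℝ)) x else 0) (fun j _ => ?_) hi
          split_ifs
          · exact Set.indicator_nonneg (fun _ _ => zero_le_one) _
          · exact le_rfl
        exact mul_nonneg (by linarith) (Real.log_nonneg h4)
    refine (ENNReal.ofReal_le_ofReal h2).trans ?_
    rw [ENNReal.ofReal_add (Finset.sum_nonneg fun a _ => hlog a)
      (mul_nonneg (mlt_nonneg δ c e x) hlQ)]
    refine add_le_add ?_ ?_
    · rw [ENNReal.ofReal_sum_of_nonneg fun a _ => hlog a]
      calc ∑ a ∈ A, ENNReal.ofReal (M a x * Real.log (M a x))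
          = ∑ a ∈ A, (sl a.1 a.2.2.1 : Set (E d)).indicator
              (fun x => ENNReal.ofReal (M a x * Real.log (M a x))) x := by
            refine Finset.sum_congr rfl fun a ha => ?_
            rw [hA, Finset.mem_filter, Finset.mem_filter] at ha
            rw [Set.indicator_of_mem ha.1.2]
        _ ≤ _ := by
            refine Finset.sum_le_sum_of_subset ?_
            rw [hA]
            exact (Finset.filter_subset _ _).trans (Finset.filter_subset _ _)
    · rw [mul_comm, ENNReal.ofReal_mul hlQ]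
      refine mul_le_mul_right ?_ _
      unfold mlt
      rw [ENNReal.ofReal_sum_of_nonneg fun i _ => Set.indicator_nonneg (fun _ _ => zero_le_one) _]
      refine Finset.sum_le_sum fun i _ => ?_
      by_cases hx : x ∈ tube δ (c i) (e i)
      · rw [Set.indicator_of_mem hx, Set.indicator_of_mem hx, ENNReal.ofReal_one]
      · rw [Set.indicator_of_notMem hx, Set.indicator_of_notMem hx, ENNReal.ofReal_zero]
  have hmeasT : ∀ i, Measurable ((tube δ (c i) (e i)).indicator (fun _ => (1 : ENNReal))) :=
    fun i => measurable_const.indicator (Pool.Agent.H53.Kak.measurableSet_tube _ _ _)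
  have hmeasM : ∀ a, Measurable ((sl a.1 a.2.2.1 : Set (E d)).indicator
      (fun x => ENNReal.ofReal (M a x * Real.log (M a x)))) := fun a =>
    (((hMm a).mul (Real.measurable_log.comp (hMm a))).ennreal_ofReal).indicator (sl_meas _ _)
  have h1 : ∫⁻ x : E d, ENNReal.ofReal (mlt δ c e x * Real.log (mlt δ c e x)) ≤
      (∑ a ∈ I, ∫⁻ x in (sl a.1 a.2.2.1 : Set (E d)),
        ENNReal.ofReal (M a x * Real.log (M a x))) +
      ENNReal.ofReal (Real.log Q) * ∑ i, volume (tube δ (c i) (e i)) := by
    refine (lintegral_mono hpt).trans (le_of_eq ?_)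
    rw [lintegral_add_left (Finset.measurable_sum _ fun a _ => hmeasM a),
      lintegral_finsetSum _ fun a _ => hmeasM a,
      lintegral_const_mul _ (Finset.measurable_sum _ fun i _ => hmeasT i),
      lintegral_finsetSum _ fun i _ => hmeasT i]
    congr 1
    · refine Finset.sum_congr rfl fun a _ => ?_
      rw [lintegral_indicator (sl_meas _ _)]
    · congr 1
      refine Finset.sum_congr rfl fun i _ => ?_
      exact lintegral_indicator_one (Pool.Agent.H53.Kak.measurableSet_tube _ _ _)
  have h2 : ∑ a ∈ I, ∫⁻ x in (sl a.1 a.2.2.1 : Set (E d)),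
        ENNReal.ofReal (M a x * Real.log (M a x)) ≤
      ENNReal.ofReal (B * ((4 / hm d + 1) * Fintype.card ι)) := by
    calc ∑ a ∈ I, ∫⁻ x in (sl a.1 a.2.2.1 : Set (E d)),
          ENNReal.ofReal (M a x * Real.log (M a x))
        ≤ ∑ a ∈ I, ENNReal.ofReal (B * Fintype.card {i // a ∈ labs (c i) (e i)}) := by
          refine Finset.sum_le_sum fun a ha => ?_
          rw [hI, Finset.mem_biUnion] at ha
          obtain ⟨i, -, hi⟩ := ha
          have : Nonempty {i // a ∈ labs (c i) (e i)} := ⟨⟨i, hi⟩⟩
          exact hcell {i // a ∈ labs (c i) (e i)} (fun i => i.1) a.1 a.2.2.1 a.2.2.2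
            Subtype.val_injective (TO2.cell_of c e he a)
      _ = ENNReal.ofReal (B * ∑ a ∈ I, (Fintype.card {i // a ∈ labs (c i) (e i)} : ℝ)) := by
          rw [← ENNReal.ofReal_sum_of_nonneg fun a _ => by positivity, ← Finset.mul_sum]
      _ ≤ _ := by
          refine ENNReal.ofReal_le_ofReal (mul_le_mul_of_nonneg_left ?_ hB)
          have h3 : ∀ a, (Fintype.card {i // a ∈ labs (c i) (e i)} : ℝ) =
              ∑ i, if a ∈ labs (c i) (e i) then (1 : ℝ) else 0 := by
            intro a
            rw [Fintype.card_subtype, Finset.sum_boole]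
          simp_rw [h3]
          rw [Finset.sum_comm]
          calc ∑ i, ∑ a ∈ I, (if a ∈ labs (c i) (e i) then (1 : ℝ) else 0)
              ≤ ∑ _i : ι, (4 / hm d + 1) := by
                refine Finset.sum_le_sum fun i _ => ?_
                rw [Finset.sum_boole]
                refine le_trans ?_ (card_labs (c i) (e i))
                have : I.filter (fun a => a ∈ labs (c i) (e i)) ⊆ labs (c i) (e i) := by
                  intro a ha
                  exact (Finset.mem_filter.1 ha).2
                exact_mod_cast Finset.card_le_card this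
            _ = _ := by
                rw [Finset.sum_const, Finset.card_univ, nsmul_eq_mul]
                ring
  have h3 : ENNReal.ofReal (Real.log Q) * ∑ i, volume (tube δ (c i) (e i)) ≤
      ENNReal.ofReal (Real.log Q * (Fintype.card ι * (2 * δ) ^ d)) := by
    rw [ENNReal.ofReal_mul hlQ]
    refine mul_le_mul_right ?_ _
    calc ∑ i, volume (tube δ (c i) (e i)) ≤ ∑ _i : ι, ENNReal.ofReal ((2 * δ) ^ d) :=
          Finset.sum_le_sum fun i _ =>
            Pool.Agent.H53.Kak.volume_tube_le δ hδ.le (c i) (e i) (he i)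
      _ = _ := by
          rw [← ENNReal.ofReal_sum_of_nonneg fun a _ => by positivity, Finset.sum_const,
            Finset.card_univ, nsmul_eq_mul]
  refine h1.trans ((add_le_add h2 h3).trans ?_)
  have hn : (0 : ℝ) ≤ Fintype.card ι := Nat.cast_nonneg _
  have h4 : (0 : ℝ) ≤ 4 / hm d := by positivity
  rw [← ENNReal.ofReal_add (by positivity) (by positivity)]
  apply ENNReal.ofReal_le_ofReal
  rw [mul_pow]
  have h5 : 0 ≤ (4 / hm d + 1) * δ ^ d * Fintype.card ι := by positivity
  have h6 : 0 ≤ Real.log Q * 2 ^ d * B * Fintype.card ι := by positivity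
  nlinarith

end Pool.STK
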