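import Pool.Agent.H90.STK.Stmts3

/-!
# Board stk2, module UNI: entropy for the uniform law
-/

set_option autoImplicit false

namespace Pool.STK

open Finset Real MeasureTheory
open Pool.Agent.H49.Ent Pool.Agent.H32.Dense

namespace UNI

open Classical in
theorem law_unif {κ S : Type} [Fintype κ] (f : κ → S) (i : κ) :
    law (unif κ) f (f i) = ((univ.filter fun j => f j = f i).card : ℝ) / Fintype.card κ := by
  unfold law unif
  rw [← Finset.sum_filter, Finset.sum_const, nsmul_eq_mul]
  ring

end UNI

/-- UNI -/
theorem uni_thm : UNIStmt := by
  intro κ S _ _
  have hn : (0 : ℝ) < Fintype.card κ := by exact_mod_cast Fintype.card_pos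
  constructor
  · constructor
    · intro ω
      unfold unif
      positivity
    · unfold unif
      rw [Finset.sum_const, Finset.card_univ, nsmul_eq_mul]
      field_simp
  · intro f
    classical
    unfold H
    have h1 : ∀ i, unif κ i * Real.log (law (unif κ) f (f i)) =
        (1 / (Fintype.card κ : ℝ)) * (Real.log ((univ.filter fun j => f j = f i).card) -
          Real.log (Fintype.card κ)) := by
      intro i
      rw [UNI.law_unif]
      have hc : (0 : ℝ) < ((univ.filter fun j => f j = f i).card : ℝ) := by
        have : 0 < (univ.filter fun j => f j = f i).card :=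
          Finset.card_pos.2 ⟨i, by simp⟩
        exact_mod_cast this
      rw [Real.log_div hc.ne' hn.ne']
      rfl
    rw [Finset.sum_congr rfl (fun i _ => h1 i), ← Finset.mul_sum, Finset.sum_sub_distrib,
      Finset.sum_const, Finset.card_univ, nsmul_eq_mul]
    field_simp
    ring

end Pool.STK
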